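import Pool.Agent.PCO.StmtsP

/-!
# PCO squad (MP_e54c4c_gt), row BP3: a biproximal element of the stabiliser of a box
-/

set_option autoImplicit false

open Matrix Filter Topology

namespace Pool.Agent.PCO.H56

open Pool.Agent.PFS Pool.Agent.PFJ

theorem ind2_symm3 {n : ℕ} {x y : V n} (h : Ind2 x y) : Ind2 y x := by
  intro a b hab
  rw [add_comm] at hab
  exact (h b a hab).symm

theorem ind2_ne3 {n : ℕ} {x y : V n} (h : Ind2 x y) : x ≠ 0 := by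
  intro h0
  have := (h 1 0 (by rw [h0, smul_zero, zero_smul, add_zero])).1
  exact one_ne_zero this

/-- a boundary element outside a line gives an independent pair -/
theorem ind2_of_ne {n : ℕ} {x y : V n} (hx : x ≠ 0) (h : ∀ a b : ℝ, y ≠ a • x + b • (0 : V n)) :
    Ind2 x y := by
  intro a b hab
  by_cases hb : b = 0
  · subst hb
    rw [zero_smul, add_zero] at hab
    rcases smul_eq_zero.1 hab with ha | ha
    · exact ⟨ha, rfl⟩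
    · exact absurd ha hx
  · exfalso
    apply h (-(b⁻¹ * a)) 0
    have h1 : b⁻¹ • (a • x + b • y) = 0 := by rw [hab, smul_zero]
    rw [smul_add, smul_smul, smul_smul, inv_mul_cancel₀ hb, one_smul] at h1
    rw [smul_zero, add_zero, neg_smul]
    exact eq_neg_of_add_eq_zero_right h1

/-- **Row BP3.** -/
theorem bp3 (bf1 : Bf1Stmt) (bf2 : Bf2Stmt) (bxm : BxmStmt) (zb3 : Zb3Stmt) : Bp3Stmt := by
  classical
  intro n C Γ d h U v hB hd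
  have hCC : CC C Γ := h.toCC
  obtain ⟨-, -, -, -, hstr, -, -, -, -⟩ := bf1 n C Γ hCC h.maxc U v hB
  obtain ⟨-, -, -, f4, -, -, -⟩ := bf2 n C Γ hCC h.maxc U v hB
  obtain ⟨-, x2, x3, -, -, -, -⟩ := bxm n C Γ d h U v hB hd
  obtain ⟨x0, hx0, -⟩ := f4 0 0
  obtain ⟨x1, hx1, hx1'⟩ := f4 x0 0
  have hind : Ind2 x0 x1 := ind2_of_ne hx0.2.2.1 hx1'
  obtain ⟨c, hc⟩ : ∃ c : ℕ → Fin 3 → ℝ, c = fun (m : ℕ) =>
      ![Real.exp (m : ℝ), (Real.exp (m : ℝ))⁻¹, 1] := ⟨_, rfl⟩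
  have hcpos : ∀ m i, 0 < c m i := by
    intro m i
    rw [hc]
    fin_cases i
    · exact Real.exp_pos _
    · exact inv_pos.2 (Real.exp_pos _)
    · exact one_pos
  obtain ⟨φ, g, s, U', W, hφ, hg, hs, hBW, hdW, hPW, hW0, hW1, hindW, hlim, himg, hv⟩ :=
    zb3 n C Γ d h U v x0 x1 hB hd hx0 hx1 hind c hcpos
  obtain ⟨-, -, hW20, -, hstr', -, -, -, -⟩ := bf1 n C Γ hCC h.maxc U' (W 2) hBW
  have he : Tendsto (fun m => Real.exp (φ m : ℝ)) atTop atTop :=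
    Real.tendsto_exp_atTop.comp (tendsto_natCast_atTop_atTop.comp hφ.tendsto_atTop)
  have hu : Unt C U (x0 + x1) := hstr x0 hx0.1 x1 hx1.1 hx0.2.1 hx1.2.1 hind
  have hl0 : Tendsto (fun m => s m • act (g m) (Real.exp (φ m : ℝ) • x0)) atTop (𝓝 (W 0)) := by
    refine (hlim 0).congr fun m => ?_
    rw [hc]
    rfl
  have hl1 : Tendsto (fun m => s m • act (g m) ((Real.exp (φ m : ℝ))⁻¹ • x1)) atTop
      (𝓝 (W 1)) := by
    refine (hlim 1).congr fun m => ?_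
    rw [hc]
    rfl
  have hpair := Pool.Agent.PFJ.H82.bpbF n C Γ hCC U U' x0 x1 (W 0) (W 1) g s
    (fun m => Real.exp (φ m : ℝ)) hstr hstr' (x2 _ hu) (x3 _ hu) hx0.1 hx1.1 hx0.2.1 hx1.2.1
    hind hx0.2.2.2 hx1.2.2.2 hW0.1 hW1.1 hW0.2.1 hW1.2.1 hindW hW0.2.2.2 hW1.2.2.2 hg hs
    (fun m => Real.exp_pos _) he himg hl0 hl1
  obtain ⟨m0, hm0⟩ := hpair.exists
  obtain ⟨m, y0, y1, lam, mu, a1, a2, a3, a4, a5, a6, a7, a8, a9⟩ := hm0.exists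
  have hσΓ : (g m0)⁻¹ * g m ∈ Γ := Γ.mul_mem (Γ.inv_mem (hg m0)) (hg m)
  obtain ⟨-, n0, n1⟩ := Pool.Agent.PFJ.H76e.ei2 n C Γ hCC U hstr _ hσΓ y0 y1 lam mu
    a1 a2 a3 a4 a5 a6 a7 a8 a9
  obtain ⟨κ0, hκ0, hκ0e⟩ := hv m0
  obtain ⟨κ, hκ, hκe⟩ := hv m
  have hback : act (g m0)⁻¹ (W 2) = κ0⁻¹ • v := by
    have h1 : act (g m0)⁻¹ (act (g m0) v) = v := CC.act_inv_act _ _
    rw [hκ0e, CC.act_smul] at h1
    rw [← h1, smul_smul, inv_mul_cancel₀ hκ0.ne', one_smul]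
  have hσv : act ((g m0)⁻¹ * g m) v = (κ * κ0⁻¹) • v := by
    rw [CC.act_mul, hκe, CC.act_smul, hback, smul_smul]
  refine ⟨y0, y1, (g m0)⁻¹ * g m, ![lam, mu, κ * κ0⁻¹], ⟨a1, a3, ind2_ne3 a5, n0⟩,
    ⟨a2, a4, ind2_ne3 (ind2_symm3 a5), n1⟩, a5, hσΓ, ?_, a8, a9, hσv, ne_of_lt a7⟩
  intro i
  fin_cases i
  · exact a6
  · exact a6.trans a7
  · exact mul_pos hκ (inv_pos.2 hκ0)

end Pool.Agent.PCO.H56
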