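import Pool.Agent.PCO.StmtsB

/-!
# PCO squad (MP_e54c4c_gt), row HOR: the horosphere lemma
-/

set_option autoImplicit false

open Matrix Filter Topology

namespace Pool.Agent.PCO.H56

open Pool.Agent.PFS Pool.Agent.PFJ

/-- elements which can be conjugated simultaneously into a finite set are finite in number -/
theorem fin_conj {G : Type} [Group G] (S : Set G) (hS : S.Finite) (h : ℕ → G) (m0 : ℕ)
    (hk : ∀ I : Finset ℕ, (∀ m ∈ I, m0 ≤ m) → ∃ k : G, ∀ m ∈ I, k⁻¹ * h m * k ∈ S) :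
    (h '' Set.Ici m0).Finite := by
  classical
  by_contra hinf
  obtain ⟨T, hT, hcard⟩ := Set.Infinite.exists_subset_card_eq hinf (hS.toFinset.card + 1)
  have hch : ∀ γ : G, ∃ m : ℕ, γ ∈ T → m0 ≤ m ∧ h m = γ := by
    intro γ
    by_cases hγ : γ ∈ T
    · obtain ⟨m, hm, hme⟩ := hT hγ
      exact ⟨m, fun _ => ⟨hm, hme⟩⟩
    · exact ⟨0, fun h' => absurd h' hγ⟩
  choose f hf using hch
  obtain ⟨k, hk⟩ := hk (T.image f) (by
    intro m hm
    obtain ⟨γ, hγ, rfl⟩ := Finset.mem_image.1 hm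
    exact (hf γ hγ).1)
  have hle : T.card ≤ hS.toFinset.card := by
    refine Finset.card_le_card_of_injOn (fun γ => k⁻¹ * γ * k) ?_ ?_
    · intro γ hγ
      have h1 := hk (f γ) (Finset.mem_image_of_mem f hγ)
      rw [(hf γ hγ).2] at h1
      exact hS.mem_toFinset.2 h1
    · intro x _ y _ hxy
      have h1 : k⁻¹ * x * k = k⁻¹ * y * k := hxy
      exact mul_left_cancel (mul_right_cancel h1)
  omega

/-- **Row HOR.** -/
theorem hor (bf1 : Bf1Stmt) (cpf : CpfStmt) : HorStmt := by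
  classical
  intro n C Γ d h U v a ψ c g s p hB hd ha hψ hc hψc hcn hg hs hp hlim hcol
  have hCC : CC C Γ := h.toCC
  have hP : PCone C := hCC.toPCone
  have hH := hCC.hul
  obtain ⟨cmf1, cmf2, cmf3, cmf4, cmf5, -, -, -⟩ := Pool.Agent.PFS.H87.cmf n C Γ hCC
  have hcmc : CmcStmt := Pool.Agent.PFS.H81.cmc
  have hcov : CovStmt := Pool.Agent.PFS.H95.cov Pool.Agent.PFS.H87.cmf hcmc
  obtain ⟨hvL, hvC, hv0, hvU, hstr, hunt, -, hbd, -⟩ := bf1 n C Γ hCC h.maxc U v hB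
  obtain ⟨-, -, hsml⟩ := cpf n C Γ d h U v a hB hd ha
  have haC : a ∈ closure C := ha.2.1
  have ha0 : a ≠ 0 := ha.2.2.1
  have hanorm : 0 < ‖a‖ := norm_pos_iff.2 ha0
  have hcC : ∀ m, c m ∈ closure C := fun m => (hc m).2.1
  have haL : a ∈ LamC C Γ := (hbd a ha.1 haC ha0).1
  have hcL : ∀ m, c m ∈ LamC C Γ := fun m => (hbd (c m) (hc m).1 (hcC m) (hc m).2.2.1).1
  -- independence
  have hind : ∀ m, Ind2 a (c m) := by
    intro m α β hab
    have h1 : ψ (α • a + β • c m) = 0 := by rw [hab, map_zero]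
    rw [map_add, map_smul, map_smul, hψ.at_, hψc m, smul_zero, zero_add, smul_eq_mul,
      mul_one] at h1
    rw [h1, zero_smul, add_zero] at hab
    rcases smul_eq_zero.1 hab with h2 | h2
    · exact ⟨h2, h1⟩
    · exact absurd h2 ha0
  -- the points
  obtain ⟨y, hy⟩ : ∃ y : ℕ → V n, ∀ m, y m = a + c m + v := ⟨_, fun m => rfl⟩
  have hyC : ∀ m, y m ∈ C := by
    intro m
    have h1 : Unt C U (a + c m) := hstr a ha.1 (c m) (hc m).1 haC (hcC m) (hind m)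
    have h2 := (hunt (a + c m) h1.1 1).2 ⟨h1, one_pos⟩
    rw [one_smul] at h2
    rw [hy m]
    exact h2
  have hYC : ∀ m (x : ℝ), 0 ≤ x → y m + x • a ∈ C := fun m x hx =>
    hP.add_cl (hyC m) (hP.cl_smul haC hx)
  have hYH : ∀ m (x : ℝ), 0 ≤ x → y m + x • a ∈ Hull C Γ := by
    intro m x hx
    have h1 : y m + x • a = (1 + x) • a + c m + v := by
      rw [hy m, add_smul, one_smul]
      abel
    rw [h1]
    exact hH.add _ (hH.add _ (hH.lamHull _ (hH.lamSmul a haL (1 + x) (by linarith))) _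
      (hH.lamHull _ (hcL m))) _ (hH.lamHull _ hvL)
  -- the normalised elements
  obtain ⟨t, ht⟩ : ∃ t : ℕ → GL (Fin n) ℝ, ∀ m, t m = (g 0)⁻¹ * g m := ⟨_, fun m => rfl⟩
  have htΓ : ∀ m, t m ∈ Γ := fun m => by
    rw [ht m]
    exact Γ.mul_mem (Γ.inv_mem (hg 0)) (hg m)
  have hκex : ∀ m, ∃ κ : ℝ, 0 < κ ∧ act (t m) a = κ • a := by
    intro m
    obtain ⟨κ, hκ⟩ := hcol m 0
    have h1 : act (t m) a = κ • a := by
      rw [ht m, CC.act_mul, hκ, CC.act_smul, CC.act_inv_act]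
    refine ⟨κ, ?_, h1⟩
    by_contra hneg
    rw [not_lt] at hneg
    have h2 : act (t m) a ∈ closure C := hCC.act_cl (htΓ m) haC
    have h3 : act (t m) a = 0 := by
      apply hP.salient _ h2
      rw [h1, ← neg_smul]
      exact hP.cl_smul haC (by linarith)
    exact ha0 (CC.act_injective (t m) (by rw [h3, CC.act_zero]))
  choose κ hκ0 hκ using hκex
  -- the limit
  obtain ⟨p', hp'⟩ : ∃ p' : V n, p' = act (g 0)⁻¹ p := ⟨_, rfl⟩
  have hp'C : p' ∈ C := by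
    rw [hp']
    exact hCC.mem _ (Γ.inv_mem (hg 0)) _ hp
  obtain ⟨A, hA⟩ : ∃ A : ℕ → V n → V n, ∀ m x, A m x = s m • act (t m) x := ⟨_, fun m x => rfl⟩
  have hAlim : Tendsto (fun m => A m (y m)) atTop (𝓝 p') := by
    have h1 : Tendsto (fun m => act (g 0)⁻¹ (s m • act (g m) (a + c m + v))) atTop (𝓝 p') := by
      rw [hp']
      exact ((CC.act_continuous (g 0)⁻¹).tendsto p).comp hlim
    refine h1.congr fun m => ?_
    rw [hA, ht m, CC.act_mul, CC.act_smul, hy m]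
  have hAadd : ∀ m x z, A m (x + z) = A m x + A m z := fun m x z => by
    rw [hA, hA, hA, CC.act_add, smul_add]
  have hAsub : ∀ m x z, A m (x - z) = A m x - A m z := fun m x z => by
    rw [hA, hA, hA, CC.act_sub, smul_sub]
  have hAsmul : ∀ m (r : ℝ) x, A m (r • x) = r • A m x := fun m r x => by
    rw [hA, hA, CC.act_smul, smul_comm]
  have hAC : ∀ m x, A m x ∈ C ↔ x ∈ C := fun m x => by
    rw [hA]
    exact hCC.sact_mem_iff (htΓ m) (hs m)
  have hAcl : ∀ m x, A m x ∈ closure C ↔ x ∈ closure C := fun m x => by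
    rw [hA]
    exact hCC.sact_cl_iff (htΓ m) (hs m)
  obtain ⟨σ, hσ⟩ : ∃ σ : ℕ → ℝ, ∀ m, σ m = s m * κ m := ⟨_, fun m => rfl⟩
  have hσ0 : ∀ m, 0 < σ m := fun m => by rw [hσ m]; exact mul_pos (hs m) (hκ0 m)
  have hAa : ∀ m, A m a = σ m • a := fun m => by
    rw [hA, hκ m, smul_smul, hσ m]
  have hAsa : ∀ m (x : ℝ), A m (y m + x • a) = A m (y m) + (x * σ m) • a := fun m x => by
    rw [hAadd, hAsmul, hAa, smul_smul]
  -- (i)
  obtain ⟨B, hBpos, hBn⟩ := hP.normal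
  obtain ⟨R0, hR0⟩ := (Metric.isBounded_range_of_tendsto _ hAlim).exists_norm_le
  have hR0' : ∀ m, ‖A m (y m)‖ ≤ R0 := fun m => hR0 _ ⟨m, rfl⟩
  have hcv : ∀ m, c m + v ∈ closure C := fun m => hP.cl_add (hcC m) hvC
  obtain ⟨R, hRdef⟩ : ∃ R : ℝ, R = B * R0 / ‖a‖ := ⟨_, rfl⟩
  have hσR : ∀ m, σ m ≤ R := by
    intro m
    have h1 : A m (y m) - σ m • a ∈ closure C := by
      rw [← hAa m, ← hAsub, hAcl]
      have h2 : y m - a = c m + v := by rw [hy m]; abel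
      rw [h2]
      exact hcv m
    have h2 := hBn _ _ (hP.cl_smul haC (hσ0 m).le) h1
    rw [norm_smul, Real.norm_of_nonneg (hσ0 m).le] at h2
    rw [hRdef, le_div_iff₀ hanorm]
    exact h2.trans (mul_le_mul_of_nonneg_left (hR0' m) hBpos.le)
  have hRpos : 0 < R := (hσ0 0).trans_le (hσR 0)
  -- (ii)
  obtain ⟨M', hM', hM'C⟩ := hP.absorb hp'C a
  obtain ⟨r, hr⟩ : ∃ r : ℝ, r = M'⁻¹ := ⟨_, rfl⟩
  have hr0 : 0 < r := by rw [hr]; exact inv_pos.2 hM'
  have hpr : p' - r • a ∈ C := by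
    have h1 := hP.smul _ hM'C r hr0
    rw [smul_sub, smul_smul, hr, inv_mul_cancel₀ hM'.ne', one_smul, ← hr] at h1
    exact h1
  have hσr : ∀ᶠ m in atTop, r ≤ σ m := by
    have h1 : Tendsto (fun m => A m (y m) - r • a) atTop (𝓝 (p' - r • a)) :=
      hAlim.sub tendsto_const_nhds
    filter_upwards [h1.eventually (hP.isOpen.mem_nhds hpr)] with m hm
    by_contra hlt
    rw [not_le] at hlt
    have h2 : A m (y m) - σ m • a ∈ C := by
      have h3 : A m (y m) - σ m • a = (A m (y m) - r • a) + (r - σ m) • a := by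
        rw [sub_smul]
        abel
      rw [h3]
      exact hP.add_cl hm (hP.cl_smul haC (by linarith))
    rw [← hAa m, ← hAsub, hAC] at h2
    have h4 : y m - a = c m + (1 : ℝ) • v := by rw [hy m, one_smul]; abel
    rw [h4] at h2
    exact (hc m).2.2.2 ((hunt (c m) (hc m).1 1).1 h2).1
  -- (iii)
  obtain ⟨Ma, hMa, hMaC⟩ := hP.absorb (hyC 0) p'
  obtain ⟨Mb, hMb, hMbC⟩ := hP.absorb hp'C (y 0)
  have hev1 : ∀ᶠ m in atTop, Ma • y 0 - A m (y m) ∈ C :=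
    (tendsto_const_nhds.sub hAlim).eventually (hP.isOpen.mem_nhds hMaC)
  have hev2 : ∀ᶠ m in atTop, Mb • A m (y m) - y 0 ∈ C :=
    ((hAlim.const_smul Mb).sub tendsto_const_nhds).eventually (hP.isOpen.mem_nhds hMbC)
  obtain ⟨m0, hm0⟩ := eventually_atTop.1 (hσr.and (hev1.and hev2))
  obtain ⟨M2, hM2⟩ : ∃ M2 : ℝ, M2 = max Ma R := ⟨_, rfl⟩
  obtain ⟨M3, hM3⟩ : ∃ M3 : ℝ, M3 = max Mb r⁻¹ := ⟨_, rfl⟩
  have hM2a : Ma ≤ M2 := by rw [hM2]; exact le_max_left _ _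
  have hM2b : R ≤ M2 := by rw [hM2]; exact le_max_right _ _
  have hM3a : Mb ≤ M3 := by rw [hM3]; exact le_max_left _ _
  have hM3b : r⁻¹ ≤ M3 := by rw [hM3]; exact le_max_right _ _
  have hM2p : 0 < M2 := hMa.trans_le hM2a
  have hM3p : 0 < M3 := hMb.trans_le hM3a
  have hycl : ∀ m, y m ∈ closure C := fun m => subset_closure (hyC m)
  have hcmp1 : ∀ m, m0 ≤ m → ∀ x : ℝ, 0 ≤ x →
      Cmp C (M2 * M3) (act (t m) (y m + x • a)) (y 0 + x • a) := by
    intro m hm x hx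
    obtain ⟨h1, h2, h3⟩ := hm0 m hm
    refine ⟨M3 * s m, mul_pos hM3p (hs m), ?_, ?_⟩
    · -- `Y_0 ≤ M3 A Y_m`
      have h4 : (M3 * s m) • act (t m) (y m + x • a) = M3 • A m (y m + x • a) := by
        rw [hA, smul_smul]
      rw [h4, hAsa]
      have h5 : M3 • (A m (y m) + (x * σ m) • a) - (y 0 + x • a) =
          (Mb • A m (y m) - y 0) + (M3 - Mb) • A m (y m) + (x * (M3 * σ m - 1)) • a := by
        rw [smul_add, smul_smul, sub_smul, mul_sub, sub_smul, mul_one,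
          show M3 * (x * σ m) = x * (M3 * σ m) by ring]
        abel
      rw [h5]
      refine hP.cl_add (hP.cl_add (subset_closure h3) (hP.cl_smul ((hAcl m _).2 (hycl m))
        (by linarith))) (hP.cl_smul haC (mul_nonneg hx ?_))
      have h6 : r⁻¹ * r ≤ M3 * σ m := mul_le_mul hM3b h1 hr0.le hM3p.le
      rw [inv_mul_cancel₀ hr0.ne'] at h6
      linarith
    · have h4 : (M3 * s m) • act (t m) (y m + x • a) = M3 • A m (y m + x • a) := by
        rw [hA, smul_smul]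
      rw [h4, hAsa]
      have h5 : (M2 * M3) • (y 0 + x • a) - M3 • (A m (y m) + (x * σ m) • a) =
          M3 • ((Ma • y 0 - A m (y m)) + (M2 - Ma) • y 0 + (x * (M2 - σ m)) • a) := by
        module
      rw [h5]
      refine hP.cl_smul ?_ hM3p.le
      exact hP.cl_add (hP.cl_add (subset_closure h2) (hP.cl_smul (hycl 0) (by linarith)))
        (hP.cl_smul haC (mul_nonneg hx (by linarith [hσR m])))
  -- (iv)
  have hkex : ∀ m, ∃ k : ℝ, 0 < k ∧ k • a + (1 / 2 : ℝ) • y 0 - (c m - c 0) ∈ closure C ∧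
      k • a + (1 / 2 : ℝ) • y 0 + (c m - c 0) ∈ closure C := by
    intro m
    have h1 : ψ (c m - c 0) = 0 := by rw [map_sub, hψc, hψc, sub_self]
    exact hsml ψ hψ (c m - c 0) (U.sub_mem (hc m).1 (hc 0).1) h1 (y 0) (hyC 0) (1 / 2)
      (by norm_num)
  choose k hk0 hk1 hk2 using hkex
  have hcmp2 : ∀ m, ∀ x : ℝ, 2 * k m ≤ x → Cmp C 3 (y m + x • a) (y 0 + x • a) := by
    intro m x hx
    refine ⟨2, by norm_num, ?_, ?_⟩
    · have h1 : (2 : ℝ) • (y m + x • a) - (y 0 + x • a) =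
          (2 : ℝ) • ((k m • a + (1 / 2 : ℝ) • y 0 + (c m - c 0)) + (x / 2 - k m) • a) := by
        rw [hy m, hy 0]
        module
      rw [h1]
      exact hP.cl_smul (hP.cl_add (hk2 m) (hP.cl_smul haC (by linarith))) (by norm_num)
    · have h1 : (3 : ℝ) • (y 0 + x • a) - (2 : ℝ) • (y m + x • a) =
          (2 : ℝ) • ((k m • a + (1 / 2 : ℝ) • y 0 - (c m - c 0)) + (x / 2 - k m) • a) := by
        rw [hy m, hy 0]
        module
      rw [h1]
      exact hP.cl_smul (hP.cl_add (hk1 m) (hP.cl_smul haC (by linarith))) (by norm_num)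
  obtain ⟨M4, hM4⟩ : ∃ M4 : ℝ, M4 = 3 * (M2 * M3) := ⟨_, rfl⟩
  have hM4p : 0 < M4 := by rw [hM4]; positivity
  have hcmp3 : ∀ m, m0 ≤ m → ∀ x : ℝ, 2 * k m ≤ x →
      Cmp C M4 (act (t m) (y 0 + x • a)) (y 0 + x • a) := by
    intro m hm x hx
    have hx0 : 0 ≤ x := by linarith [hk0 m]
    have e1 : act (t m) (y m + x • a) ∈ C := hCC.mem _ (htΓ m) _ (hYC m x hx0)
    have e2 : act (t m) (y 0 + x • a) ∈ C := hCC.mem _ (htΓ m) _ (hYC 0 x hx0)
    have h1 : Cmp C 3 (act (t m) (y m + x • a)) (act (t m) (y 0 + x • a)) :=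
      (cmf4 3 _ _ (t m) (htΓ m)).2 (hcmp2 m x hx)
    have h2 := cmf1 3 _ _ e1 e2 h1
    rw [hM4]
    exact cmf2 3 (M2 * M3) _ _ _ (by norm_num) (mul_pos hM2p hM3p).le e2 e1 (hYC 0 x hx0) h2
      (hcmp1 m hm x hx0)
  -- (v)
  obtain ⟨M0, hM0, hcov0⟩ := hcov n C Γ hCC (y 0) (hyC 0)
  have hM0p : 0 < M0 := by linarith
  have hfin := Pool.Agent.PFS.H3.prp n C Γ hCC (y 0) (hyC 0) (M0 * (M4 * M0))
  have hfinite : (t '' Set.Ici m0).Finite := by
    refine fin_conj _ hfin t m0 fun I hI => ?_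
    obtain ⟨x, hx⟩ : ∃ x : ℝ, ∀ m ∈ I, 2 * k m ≤ x := by
      refine ⟨∑ m ∈ I, 2 * k m, fun m hm => ?_⟩
      exact Finset.single_le_sum (f := fun m => 2 * k m)
        (fun i _ => by have := hk0 i; linarith) hm
    obtain ⟨x', hx'⟩ : ∃ x' : ℝ, x' = max x 0 := ⟨_, rfl⟩
    have hx'0 : 0 ≤ x' := by rw [hx']; exact le_max_right _ _
    obtain ⟨q, hq, hqc⟩ := hcov0 (y 0 + x' • a) (hYC 0 x' hx'0) (hYH 0 x' hx'0)
    refine ⟨q, fun m hm => ?_⟩
    have hxm : 2 * k m ≤ x' := (hx m hm).trans (by rw [hx']; exact le_max_left _ _)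
    have h3 := hcmp3 m (hI m hm) x' hxm
    have hqo : act q (y 0) ∈ C := hCC.mem _ hq _ (hyC 0)
    have hY := hYC 0 x' hx'0
    have e1 : act (t m) (y 0 + x' • a) ∈ C := hCC.mem _ (htΓ m) _ hY
    have e2 : act (t m) (act q (y 0)) ∈ C := hCC.mem _ (htΓ m) _ hqo
    have h4 : Cmp C M0 (act (t m) (y 0 + x' • a)) (act (t m) (act q (y 0))) :=
      (cmf4 M0 _ _ (t m) (htΓ m)).2 hqc
    have h5 := cmf1 M0 _ _ e1 e2 h4
    have h6 := cmf2 M4 M0 _ _ _ hM4p.le hM0p.le e1 hY hqo h3 hqc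
    have h7 := cmf2 M0 (M4 * M0) _ _ _ hM0p.le (mul_pos hM4p hM0p).le e2 e1 hqo h5 h6
    have h8 := (cmf4 (M0 * (M4 * M0)) _ _ q⁻¹ (Γ.inv_mem hq)).2 h7
    refine ⟨Γ.mul_mem (Γ.mul_mem (Γ.inv_mem hq) (htΓ m)) hq, ?_⟩
    have h9 : act (q⁻¹ * t m * q) (y 0) = act q⁻¹ (act (t m) (act q (y 0))) := by
      rw [CC.act_mul, CC.act_mul]
    rw [h9]
    rwa [CC.act_inv_act] at h8
  -- one value infinitely often
  have hfreq : ∃ γ ∈ t '' Set.Ici m0, ∃ᶠ m in atTop, t m = γ := by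
    by_contra hno
    push_neg at hno
    have h1 : ∀ᶠ m in atTop, ∀ γ ∈ t '' Set.Ici m0, t m ≠ γ :=
      (Filter.eventually_all_finite hfinite).2 fun γ hγ => hno γ hγ
    obtain ⟨m, hm1, hm2⟩ := (h1.and (eventually_ge_atTop m0)).exists
    exact hm1 (t m) ⟨m, hm2, rfl⟩ rfl
  obtain ⟨γ, ⟨m1, -, hm1⟩, hγ⟩ := hfreq
  have hinvlim : Tendsto (fun m => act γ⁻¹ (A m (y m))) atTop (𝓝 (act γ⁻¹ p')) :=
    ((CC.act_continuous γ⁻¹).tendsto p').comp hAlim
  obtain ⟨R1, hR1⟩ := (Metric.isBounded_range_of_tendsto _ hinvlim).exists_norm_le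
  have hR1' : ∀ m, ‖act γ⁻¹ (A m (y m))‖ ≤ R1 := fun m => hR1 _ ⟨m, rfl⟩
  have hbig : ∀ᶠ m in atTop, B * ((κ m1 / r) * R1) < ‖c m‖ := hcn.eventually_gt_atTop _
  obtain ⟨m, hm, hmb, hmr⟩ := (hγ.and_eventually (hbig.and hσr)).exists
  have hκm : κ m = κ m1 := by
    have h1 : κ m • a = κ m1 • a := by rw [← hκ m, ← hκ m1, hm, hm1]
    have h2 : (κ m - κ m1) • a = 0 := by rw [sub_smul, h1, sub_self]
    rcases smul_eq_zero.1 h2 with h3 | h3
    · linarith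
    · exact absurd h3 ha0
  have hsm : r / κ m1 ≤ s m := by
    rw [div_le_iff₀ (hκ0 m1), ← hκm, ← hσ m]
    exact hmr
  have hym : y m = (s m)⁻¹ • act γ⁻¹ (A m (y m)) := by
    rw [hA, hm, CC.act_smul, CC.act_inv_act, smul_smul, inv_mul_cancel₀ (hs m).ne', one_smul]
  have hsinv : (s m)⁻¹ ≤ κ m1 / r := by
    rw [inv_le_comm₀ (hs m) (div_pos (hκ0 m1) hr0), inv_div]
    exact hsm
  have hR1n : 0 ≤ R1 := (norm_nonneg _).trans (hR1' m)
  have hynorm : ‖y m‖ ≤ (κ m1 / r) * R1 := by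
    rw [hym, norm_smul, Real.norm_of_nonneg (inv_pos.2 (hs m)).le]
    exact mul_le_mul hsinv (hR1' m) (norm_nonneg _) (div_pos (hκ0 m1) hr0).le
  have hcy : y m - c m ∈ closure C := by
    have h1 : y m - c m = a + v := by rw [hy m]; abel
    rw [h1]
    exact hP.cl_add haC hvC
  have h1 := hBn _ _ (hcC m) hcy
  have h2 : B * ‖y m‖ ≤ B * ((κ m1 / r) * R1) := mul_le_mul_of_nonneg_left hynorm hBpos.le
  linarith

end Pool.Agent.PCO.H56
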